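import Pool.Agent.Helper79.KW.Statement
import Pool.Agent.Helper79.KW.Bridge

/-!
# Every étale groupoid with exact reduced C*-algebra is KW-exact
-/

open CategoryTheory Topology
open Pool.Agent.GroupoidExact
open Pool.Agent.KW (Arr EtaleGroupoid)

namespace Pool.Agent.Results.MP_715b63_an.ExactImpliesKWExact

universe u v w

/-- Every étale groupoid `G` (locally compact Hausdorff, with unit space `X` and space of arrows
`Arr X`; no countability assumption) whose reduced C*-algebra is exact is KW-exact: reduced
crossed products by `G` preserve short exact sequences of `G`-C*-algebras.  Here `H = ℓ²(G)` is a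
Hilbert space with an orthonormal basis `δ` indexed by the arrows of `G`, and `redAlg δ` is the
reduced C*-algebra of `G`, acting on it by the regular representations. -/
theorem result (X : Type u) [Groupoid.{u} X] [TopologicalSpace X] [TopologicalSpace (Arr X)]
    [EtaleGroupoid X] (H : Type w) [NormedAddCommGroup H] [InnerProductSpace ℂ H]
    [CompleteSpace H] (δ : HilbertBasis (Arr X) ℂ H)
    (h : IsExactAlg δ (redAlg δ : Set (H →L[ℂ] H))) : KWExact.{u, v} X :=
  main_statement X H δ h

end Pool.Agent.Results.MP_715b63_an.ExactImpliesKWExact
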